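import Pool.Agent.V5helper20.WX.Stm
import Pool.Agent.N275.QD.Ker

/-!
# Project WX, job RFL: discrete reflection lower bound
-/

set_option autoImplicit false

namespace Pool.Agent.V5helper58.WX

open MeasureTheory Set Filter Topology Complex
open Pool.Agent.R225.LP (gk ks ip ip_cont gk_nonneg)
open Pool.Agent.R225.LP.TR (ch ch_mono_set kp kp_meas ks_eq)
open Pool.Agent.N275.QD
open scoped Real ENNReal

/-- the reflected kernel -/
lemma kp_rf_eq {τ : ℝ} (hτ : 0 < τ) {w : ℂ} (hw : ‖w‖ = 1) (c : ℝ) (a b : ℂ) :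
    kp τ a (rf w c b) = ENNReal.ofReal (gk τ (b - a)) *
      ENNReal.ofReal (Real.exp (-((c - ip w a) * (c - ip w b) / τ))) := by
  unfold kp
  rw [← ENNReal.ofReal_mul (gk_nonneg hτ _)]
  congr 1
  unfold gk
  rw [rf_norm hw, div_mul_eq_mul_div, ← Real.exp_add]
  congr 2
  field_simp
  ring

/-- one line -/
lemma hc_line {s : ℝ} (hs : 0 < s) {w : ℂ} (hw : ‖w‖ = 1) {c : ℝ} (Q : Set ℂ) (n : ℕ) {a b : ℂ}
    (hb : ip w b < c) : hc (kp s) Q {z | c ≤ ip w z} n a b ≤
      ENNReal.ofReal (gk ((n + 1) * s) (b - a)) *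
        ENNReal.ofReal (Real.exp (-((c - ip w a) * (c - ip w b) / ((n + 1) * s)))) := by
  have hw' : ‖-w‖ = 1 := by rw [norm_neg, hw]
  have hmeas : MeasurableSet {z : ℂ | c ≤ ip w z} :=
    measurableSet_le measurable_const (ip_cont w).measurable
  have rneg : ∀ (c : ℝ) (z : ℂ), rf (-w) (-c) z = rf w c z := by
    intro c z
    unfold rf
    rw [Pool.Agent.R225.LP.ip_neg_left]
    push_cast
    ring
  have h1 := refl1 hs hw' (c := -c) Q hmeas (fun y hy => by
    rw [Pool.Agent.R225.LP.ip_neg_left]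
    have : c ≤ ip w y := hy
    linarith) (b := b) (by
    rw [Pool.Agent.R225.LP.ip_neg_left]
    linarith) n a
  rw [rneg, kp_rf_eq (by positivity) hw] at h1
  exact h1

theorem t_RFL : Pool.Agent.V5helper20.WX.S_RFL := by
  intro N w c s n a b hs hw ha hb
  have key : ∀ S : Finset (Fin N), ENNReal.ofReal (gk ((n + 1) * s) (b - a)) ≤
      ch (kp s) {z | ∀ i ∈ S, ip (w i) z < c i} n a b +
        ∑ i ∈ S, ENNReal.ofReal (gk ((n + 1) * s) (b - a)) *
          ENNReal.ofReal (Real.exp (-((c i - ip (w i) a) * (c i - ip (w i) b) /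
            ((n + 1) * s)))) := by
    intro S
    induction S using Finset.induction_on with
    | empty =>
      have h1 : {z : ℂ | ∀ i ∈ (∅ : Finset (Fin N)), ip (w i) z < c i} = univ := by
        ext z
        simp
      rw [h1, ch_univ hs, Finset.sum_empty, add_zero]
      exact le_rfl
    | insert i S hi ih =>
      have hmeas : MeasurableSet {z : ℂ | c i ≤ ip (w i) z} :=
        measurableSet_le measurable_const (ip_cont (w i)).measurable
      have h1 : {z : ℂ | ∀ j ∈ S, ip (w j) z < c j} \ {z : ℂ | c i ≤ ip (w i) z} =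
          {z | ∀ j ∈ insert i S, ip (w j) z < c j} := by
        ext z
        simp only [Set.mem_sdiff, Set.mem_ofPred_eq, not_le, Finset.forall_mem_insert]
        tauto
      rw [ch_split (kp_meas s) _ hmeas, h1] at ih
      rw [Finset.sum_insert hi]
      refine ih.trans ?_
      rw [add_assoc]
      gcongr
      exact hc_line hs (hw i) _ n (hb i)
  have h1 := key Finset.univ
  rw [ks_eq]
  simpa only [Finset.mem_univ, true_implies] using h1

end Pool.Agent.V5helper58.WX
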